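import Mathlib
import Pool.Agent.H.MP_c54df4_lc.Main

set_option autoImplicit false

namespace Pool.Agent.Results.MP_2734af_lc.Counter

open Filter Pool.Agent.Lib.helper21.Tens Pool.Agent.H.MP_c54df4_lc

noncomputable def q (n : ℕ) : ℕ+ := ⟨Nat.nth Nat.Prime n, (Nat.prime_nth_prime n).pos⟩

lemma q_prime (n : ℕ) : (q n : ℕ).Prime := Nat.prime_nth_prime n

lemma q_inj {a b : ℕ} (h : (q a : ℕ) = q b) : a = b :=
  Nat.nth_injective Nat.infinite_setOf_prime h

noncomputable def pr (x : ℕ × ℕ) : ℕ+ := q (2 * x.1 + 1) * q (2 * x.2)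

lemma of_dvd {i : ℕ} {x : ℕ × ℕ} (h : q (2 * i) ∣ pr x) : x.2 = i := by
  rw [PNat.dvd_iff, pr, PNat.mul_coe, (q_prime _).dvd_mul,
    Nat.prime_dvd_prime_iff_eq (q_prime _) (q_prime _),
    Nat.prime_dvd_prime_iff_eq (q_prime _) (q_prime _)] at h
  rcases h with h | h <;> have := q_inj h <;> omega

lemma pr_inj : Function.Injective pr := by
  rintro ⟨a, b⟩ ⟨c, d⟩ h
  have h1 : d = b := of_dvd (x := (c, d)) (h ▸ Dvd.intro_left _ rfl)
  subst h1
  have := q_inj (congrArg PNat.val (mul_right_cancel h))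
  have : a = c := by omega
  rw [this]

theorem result (T : Type) : ∃ (ι : Type) (W : Ultrafilter ι), Enl W T ∧ Enl W ℕ+ ∧
    ∃ F G : Ultrafilter ℕ+, TDvd F G ∧ ∃ x ∈ mu W F, ∀ y ∈ mu W G, ¬ x ∣ y := by
  obtain ⟨J, E, hE⟩ := exists_E T
  let D := hyperfilter ℕ
  refine ⟨ℕ × J, tens D E, (hE D).1, (hE D).2, D.map fun i => q (2 * i), (tens D D).map pr, ?_,
    ((fun x : ℕ × J => q (2 * x.1)) : Germ _ _), ?_, ?_⟩
  · intro A hA
    refine Ultrafilter.mem_map.2 (mem_of_superset (mem_map.1 (tendsto_snd D D hA)) fun x hx => ?_)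
    exact ⟨_, hx, Dvd.intro_left _ rfl⟩
  · exact (mem_mu _ _ _).2 (tendsto_map.comp (tendsto_fst D E))
  · intro y hy hd
    induction y using Germ.inductionOn with | h f => ?_
    have hS : pr '' {x | x.1 < x.2} ∈ (tens D D).map pr :=
      image_mem_map ((ev_tens D D _).2 (Eventually.of_forall fun a =>
        Nat.hyperfilter_le_atTop (eventually_gt_atTop a)))
    obtain ⟨g, hg, hs⟩ := collapse D E _ f (fun i => (fun a => pr (a, i)) '' Set.Iio i)
      (fun i => (Set.finite_Iio i).image _) ((mem_mu _ _ _).1 hy) (by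
        filter_upwards [dvd_ev _ _ _ hd, ((mem_mu _ _ _).1 hy).eventually hS] with x h1 h2
        obtain ⟨⟨a, b⟩, hab, he⟩ := h2
        rw [← he] at h1 ⊢
        have : b = x.1 := of_dvd h1
        subst this
        exact ⟨a, hab, rfl⟩)
    have h1 : ∀ i, ∃ a, g i ∈ (fun a => pr (a, i)) '' Set.Iio i → g i = pr (a, i) := by
      intro i
      by_cases h : g i ∈ (fun a => pr (a, i)) '' Set.Iio i
      · obtain ⟨a, -, ha⟩ := h
        exact ⟨a, fun _ => ha.symm⟩
      · exact ⟨0, fun h' => absurd h' h⟩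
    choose a ha using h1
    have hB : (Set.range fun i => pr (a i, i))ᶜ ∈ (tens D D).map pr := by
      have : ∀ᶠ x in (tens D D : Filter (ℕ × ℕ)), a x.2 ≠ x.1 := by
        rw [ev_tens]
        rcases (D.map a).le_cofinite_or_eq_pure with h | ⟨c, h⟩
        · exact Eventually.of_forall fun k => h (Set.finite_singleton k).compl_mem_cofinite
        · have hc : ({c} : Set ℕ) ∈ D.map a := by rw [h]; rfl
          refine hyperfilter_le_cofinite (mem_of_superset
            (Set.finite_singleton c).compl_mem_cofinite fun k hk => ?_)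
          exact mem_of_superset hc fun i hi he => hk (he.symm.trans hi)
      refine Ultrafilter.mem_map.2 (mem_of_superset this ?_)
      rintro ⟨k, b⟩ hk ⟨i, hi⟩
      obtain ⟨rfl, rfl⟩ := Prod.mk.inj (pr_inj hi)
      exact hk rfl
    obtain ⟨i, h2, h3⟩ := (hs.and (hg.eventually hB)).exists
    exact h3 ⟨i, (ha i h2).symm⟩

end Pool.Agent.Results.MP_2734af_lc.Counter
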